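import Pool.Agent.Helper92.BO.GoalsE

/-!
# Project BO, packet YVV
-/

namespace Pool.Agent.Helper89.BO

open Pool.Agent.Helper81.CC Pool.Agent.Bin Pool.Agent.Helper92.VP Pool.Agent.Helper92.FR
open Pool.Agent.Helper92.BO

theorem sum_filter_map {α : Type} (l : List α) (P : α → Bool) (f : α → ℝ) :
    ((l.filter P).map f).sum = (l.map fun I => if P I then f I else 0).sum := by
  induction l with
  | nil => simp
  | cons a l ih =>
    rw [List.filter_cons]
    by_cases h : P a = true
    · simp only [h, if_true, List.map_cons, List.sum_cons, ih]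
    · simp only [h, List.map_cons, List.sum_cons, Bool.false_eq_true, if_false, zero_add]
      exact ih

theorem yvv (hS : SblStmt) : YvvStmt := by
  classical
  intro S c Q p hnd hc T hT i
  obtain ⟨h1, -, -, -, h5, -⟩ := hS S hnd
  have hTS := h1 T hT
  set Pd : List ℕ → Bool := fun I => (I.all fun x => T.contains x) && decide (I.length = i) with hPd
  set F : Finset ℕ → ℝ := fun J => if J ⊆ T.toFinset ∧ J.card = i then p J else 0 with hF
  have e1 : ((yv ((Helper92.BO.subL S).map fun I => (I, c I)) T i).val : ℝ) =
      (((Helper92.BO.subL S).filter Pd).map fun I => ((c I).val : ℝ)).sum := by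
    unfold yv
    rw [BN.val_sum, List.filter_map, List.map_map, List.map_map, Nat.cast_list_sum,
      List.map_map]
    rfl
  have e2 : (((Helper92.BO.subL S).filter Pd).map fun I => ((c I).val : ℝ)).sum =
      ((Helper92.BO.subL S).map fun I => Q * F I.toFinset).sum := by
    rw [sum_filter_map]
    congr 1
    refine List.map_congr_left fun I hI => ?_
    have hIS := h1 I hI
    have hIn : I.Nodup := hIS.nodup hnd
    have hcard : I.toFinset.card = I.length := List.toFinset_card_of_nodup hIn
    have hiff : Pd I = true ↔ (I.toFinset ⊆ T.toFinset ∧ I.toFinset.card = i) := by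
      simp only [hPd, Bool.and_eq_true, List.all_eq_true, decide_eq_true_eq, hcard]
      refine and_congr ?_ Iff.rfl
      constructor
      · intro h x hx
        rw [List.mem_toFinset] at hx ⊢
        simpa using h x hx
      · intro h x hx
        have := h (List.mem_toFinset.2 hx)
        rw [List.mem_toFinset] at this
        simpa using this
    by_cases h : Pd I = true
    · rw [if_pos h, hc I hI]
      simp only [hF, if_pos (hiff.1 h)]
    · rw [if_neg h]
      simp only [hF, if_neg (fun h' => h (hiff.2 h')), mul_zero]
  rw [e1, e2, List.sum_map_mul_left, h5 F]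
  congr 1
  unfold yc
  have hsub : T.toFinset ⊆ S.toFinset := by
    intro x hx
    rw [List.mem_toFinset] at hx ⊢
    exact hTS.subset hx
  simp only [hF]
  rw [← Finset.sum_filter]
  refine Finset.sum_congr ?_ fun _ _ => rfl
  ext J
  simp only [Finset.mem_filter, Finset.mem_powerset, Finset.mem_powersetCard]
  constructor
  · rintro ⟨-, h⟩
    exact h
  · rintro ⟨h, h'⟩
    exact ⟨h.trans hsub, h, h'⟩

end Pool.Agent.Helper89.BO
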