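import Pool.Agent.Helper92.BO.GoalsG

/-!
# Project BO, packet ZDU
-/

namespace Pool.Agent.Helper89.BO

open MeasureTheory Filter Topology Function
open Pool.Agent.Helper92.BO

theorem cut_comm (G : SimpleGraph ℕ) (u v w : ℕ) (a c : ℝ) (b : ℕ → ℝ) :
    cut G v c (cut G u a b) w = cut G u a (cut G v c b) w := by
  classical
  unfold cut
  by_cases h1 : G.Adj v w
  · by_cases h2 : G.Adj u w
    · simp only [if_pos h1, if_pos h2]
      exact min_right_comm _ _ _
    · simp only [if_pos h1, if_neg h2]
  · by_cases h2 : G.Adj u w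
    · simp only [if_neg h1, if_pos h2]
    · simp only [if_neg h1, if_neg h2]

theorem cut_upd (G : SimpleGraph ℕ) (v w : ℕ) (c y : ℝ) (b : ℕ → ℝ) (x : ℕ) (h : w ≠ x) :
    cut G v c (update b x y) w = cut G v c b w := by
  classical
  unfold cut
  rw [Function.update_of_ne h]

theorem zdu (hLoc : LocStmt) : ZduStmt := by
  classical
  intro G l L v u b hl0 hl1 hnd hv hu hb y hy0 hy1
  have huv : u ≠ v := fun h => hv (h ▸ hu)
  obtain ⟨hbu0, hbu1⟩ := hb u hu
  have hupd : update b v y u = b u := Function.update_of_ne huv _ _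
  have herase : (v :: L).erase u = v :: L.erase u := by
    rw [List.erase_cons_tail]
    simpa using Ne.symm huv
  set B : ℕ → ℝ := cut G u (1 - b u) (update b v y) with hB
  have hLHS : Zd G l (v :: L) u (update b v y) =
      psiR l (b u) * ∫ x in (0 : ℝ)..(B v), psiR l x * ZR G l (L.erase u) (cut G v (1 - x) B) := by
    unfold Zd
    rw [hupd, herase]
    rfl
  -- the common integrand
  have hloc : ∀ x : ℝ, ZR G l (L.erase u) (cut G v (1 - x) B) =
      ZR G l (L.erase u) (cut G u (1 - b u) (cut G v (1 - x) b)) := by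
    intro x
    refine (hLoc G (fun _ => 0) 0 l (L.erase u) _ _ ?_).2.1
    intro w hw
    have hwv : w ≠ v := fun h => hv (h ▸ List.mem_of_mem_erase hw)
    rw [hB, cut_comm, ← cut_comm]
    have h1 : cut G v (1 - x) (cut G u (1 - b u) (update b v y)) w =
        cut G v (1 - x) (cut G u (1 - b u) b) w := by
      have h2 := cut_upd G u w (1 - b u) y b v hwv
      unfold cut at h2 ⊢
      rw [h2]
    rw [h1, cut_comm]
  have hpt : ∀ x : ℝ, ¬ (G.Adj v u ∧ 1 - x < b u) →
      Zd G l L u (cut G v (1 - x) b) =
        psiR l (b u) * ZR G l (L.erase u) (cut G v (1 - x) B) := by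
    intro x hx
    have h1 : cut G v (1 - x) b u = b u := by
      unfold cut
      by_cases h : G.Adj v u
      · simp only [if_pos h]
        have h2 : ¬ 1 - x < b u := fun h2 => hx ⟨h, h2⟩
        exact min_eq_left (not_lt.1 h2)
      · simp only [if_neg h]
    unfold Zd
    rw [h1, hloc]
  rw [hLHS, ← intervalIntegral.integral_const_mul]
  by_cases hadj : G.Adj v u
  · have hBv : B v = min y (1 - b u) := by
      rw [hB]
      unfold cut
      simp only [if_pos hadj.symm, Function.update_self]
    have hm0 : 0 ≤ min y (1 - b u) := le_min hy0.le (by linarith)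
    rw [hBv, intervalIntegral.integral_of_le hm0, intervalIntegral.integral_of_le hy0.le]
    have hset : Set.Ioc (0 : ℝ) (min y (1 - b u)) = Set.Ioc 0 y ∩ Set.Iic (1 - b u) := by
      ext x
      simp only [Set.mem_Ioc, le_min_iff, Set.mem_inter_iff, Set.mem_Iic]
      tauto
    rw [hset, ← setIntegral_indicator measurableSet_Iic]
    refine setIntegral_congr_fun measurableSet_Ioc fun x _ => ?_
    by_cases hx : x ≤ 1 - b u
    · have h3 : ¬ (G.Adj v u ∧ 1 - x < b u) := fun h => by linarith [h.2]
      simp only [Set.indicator_of_mem (Set.mem_Iic.2 hx), if_neg h3, hpt x h3]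
      ring
    · have h3 : G.Adj v u ∧ 1 - x < b u := ⟨hadj, by linarith [not_le.1 hx]⟩
      rw [Set.indicator_of_notMem (fun h => hx (Set.mem_Iic.1 h)), if_pos h3, mul_zero]
  · have hBv : B v = y := by
      rw [hB]
      unfold cut
      have h4 : ¬ G.Adj u v := fun h => hadj h.symm
      simp only [if_neg h4, Function.update_self]
    rw [hBv]
    refine intervalIntegral.integral_congr fun x _ => ?_
    have h3 : ¬ (G.Adj v u ∧ 1 - x < b u) := fun h => hadj h.1
    simp only [if_neg h3, hpt x h3]
    ring

end Pool.Agent.Helper89.BO
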